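import Pool.Agent.Q198.IS.Main

/-!
The isosceles three-body problem: on the level of minimal energy the flow has entropy zero.

The definitions are in `Pool.Agent.Q198.IS.Defs` and `Pool.Agent.Q198.IS.Gen`: `M m h c` is the
integral manifold `M_{h,c}` (bodies numbered `0, 1, 2`, the line `L` is the third axis of `ℝ³`),
`IsFlow m S Φ` says that `t ↦ Φ t x` is the solution of the three-body problem starting at `x`, for
each `x ∈ S`, and `IsSmoothSubmanifold` is the usual notion (locally the zero set of a smooth
submersion).  `coverEntropy` is Mathlib's topological entropy.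
-/

namespace Pool.Agent.Results.MP_3f23fb_mp.MinimalLevel

open Q198.IS

/-- For all masses `m₁ = m₂` and `m₃` and all `c ≠ 0` there is an energy `h` for which `M_{h,c}` is
nonempty, compact and a smooth submanifold, and the flow on it, which exists, has topological
entropy zero. -/
theorem result (m : Fin 3 → ℝ) (hm : ∀ i, 0 < m i) (h12 : m 0 = m 1) (c : ℝ) (hc : c ≠ 0) :
    ∃ h : ℝ, (M m h c).Nonempty ∧ IsCompact (M m h c) ∧ IsSmoothSubmanifold (M m h c) ∧
      (∃ Φ, IsFlow m (M m h c) Φ) ∧
      ∀ Φ, IsFlow m (M m h c) Φ → Dynamics.coverEntropy (Φ 1) Set.univ = 0 :=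
  ⟨hmin (m 0) (m 2) c, main rfl h12.symm rfl (hm 0) (hm 2) hc⟩

end Pool.Agent.Results.MP_3f23fb_mp.MinimalLevel
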